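import Mathlib

/-!
A checker for search trees over the `4`-regular triangle-free graphs on `16` vertices with few
four-cycles, together with its soundness proof.
-/

open Finset

namespace Pool.Agent.H170R2.Chk

/-- Evidence for a lower bound of the number of empty pairs of a row. -/
inductive Ev
  | p (i : ℕ) (l : List ℕ)
  | n (i : ℕ) (l : List ℕ)

/-- Search trees. -/
inductive T
  | br (i j : ℕ) (t1 t0 : T)
  | tri (i j k : ℕ)
  | hi (i : ℕ)
  | lo (i : ℕ)
  | cost (l : List Ev)
  | rt (l : List Ev)
  | sym (k : ℕ)
  | fin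

/-- Bit `p` of `M`. -/
def tb (M p : ℕ) : Bool := Nat.beq (Nat.land (Nat.shiftRight M p) 1) 1

/-- Row `i` of the mask `M`. -/
def rw (M i : ℕ) : ℕ := Nat.land (Nat.shiftRight M (Nat.mul 16 i)) 65535

/-- Number of bits (at most the fuel). -/
def pc : ℕ → ℕ → ℕ
  | 0, _ => 0
  | f + 1, x => bif Nat.beq x 0 then 0 else Nat.succ (pc f (Nat.land x (Nat.pred x)))

def posL (E ri i : ℕ) : ℕ → List ℕ → ℕ
  | _, [] => 0
  | s, j :: js => bif Nat.ble s j && (Nat.ble j 15 && !(Nat.beq j i)) then
      Nat.add (Nat.pred (pc 4 (Nat.land ri (rw E j)))) (posL E ri i (Nat.succ j) js) else 0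

def negL (N ri i : ℕ) : ℕ → List ℕ → ℕ
  | _, [] => 0
  | s, j :: js => bif Nat.ble s j && (Nat.ble j 15 && (!(Nat.beq j i) && (tb ri j &&
      Nat.beq (Nat.lor ri (rw N j)) 65535))) then
      Nat.succ (negL N ri i (Nat.succ j) js) else 0

def evL (E N : ℕ) : ℕ → List Ev → ℕ
  | _, [] => 0
  | s, .p i l :: t => bif Nat.ble s i && Nat.ble i 15 then
      Nat.add (Nat.pred (posL E (rw E i) i 0 l)) (evL E N (Nat.succ i) t) else 0
  | s, .n i l :: t => bif Nat.ble s i && Nat.ble i 15 then
      Nat.add (negL N (rw N i) i 0 l) (evL E N (Nat.succ i) t) else 0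

def cmp (E N : ℕ) : List (ℕ × ℕ) → Bool
  | [] => false
  | (p, q) :: l => bif tb E p then tb E q && cmp E N l else
      tb N p && (tb E q || (tb N q && cmp E N l))

def chk (fins : List ℕ) (tab : List (List (ℕ × ℕ))) : T → ℕ → ℕ → Bool
  | .br i j t1 t0, E, N => (Nat.blt i j && Nat.ble j 15) &&
      (chk fins tab t1 (Nat.lor (Nat.lor E (Nat.shiftLeft 1 (Nat.add (Nat.mul 16 i) j)))
        (Nat.shiftLeft 1 (Nat.add (Nat.mul 16 j) i))) N &&
      chk fins tab t0 E (Nat.lor (Nat.lor N (Nat.shiftLeft 1 (Nat.add (Nat.mul 16 i) j)))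
        (Nat.shiftLeft 1 (Nat.add (Nat.mul 16 j) i))))
  | .tri i j k, E, _ => (Nat.ble i 15 && (Nat.ble j 15 && Nat.ble k 15)) &&
      (tb E (Nat.add (Nat.mul 16 i) j) && (tb E (Nat.add (Nat.mul 16 j) k) &&
        tb E (Nat.add (Nat.mul 16 i) k)))
  | .hi i, E, _ => Nat.ble i 15 && Nat.ble 5 (pc 5 (rw E i))
  | .lo i, _, N => Nat.ble i 15 && Nat.ble 13 (pc 13 (rw N i))
  | .cost l, E, N => Nat.ble 16 (evL E N 0 l)
  | .rt l, E, N => Nat.ble 1 (evL E N 0 (l.filter fun e => match e with
      | .p i _ => Nat.beq i 0
      | .n i _ => Nat.beq i 0))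
  | .sym k, E, N => cmp E N (tab.getD k [])
  | .fin, E, N => fins.any (Nat.beq E) && Nat.beq (Nat.lor E N) (2 ^ 256 - 1)

/-! ### semantics -/

variable (A : ℕ → ℕ → Bool)

def cB (i j : ℕ) : ℕ := ∑ k ∈ range 16, if (A i k && A k j) = true then 1 else 0

def cP (i : ℕ) : ℕ := ∑ j ∈ range 16, if j = i then 0 else cB A i j - 1

def cZ (i : ℕ) : ℕ := ∑ j ∈ range 16, if j ≠ i ∧ A i j = false ∧ cB A i j = 0 then 1 else 0

/-- `A` read at a position. -/
def at' (p : ℕ) : Bool := A (p / 16) (p % 16)

/-- The second list beats the first one. -/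
def Win : List (ℕ × ℕ) → Prop
  | [] => False
  | (p, q) :: l => (at' A p = false ∧ at' A q = true) ∨ (at' A p = at' A q ∧ Win l)

structure Good (tab : List (List (ℕ × ℕ))) : Prop where
  symm : ∀ i j, A i j = A j i
  irr : ∀ i, A i i = false
  deg : ∀ i < 16, ∑ j ∈ range 16, (if A i j = true then 1 else 0) = 4
  tri : ∀ i j k, A i j = true → A j k = true → A i k = true → False
  row : ∀ i < 16, cP A i ≤ cZ A i + 1
  tot : ∑ i ∈ range 16, cZ A i ≤ 15
  root : cZ A 0 = 0
  lex : ∀ l ∈ tab, ¬ Win A l

def Cons (E N : ℕ) : Prop := ∀ i < 16, ∀ j < 16,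
  (E.testBit (16 * i + j) = true → A i j = true) ∧ (N.testBit (16 * i + j) = true → A i j = false)

variable {A}

lemma beq_iff (a b : ℕ) : Nat.beq a b = true ↔ a = b := by
  rw [Nat.beq_eq]

lemma ble_iff (a b : ℕ) : Nat.ble a b = true ↔ a ≤ b := by
  rw [Nat.ble_eq]

lemma tb_eq (M p : ℕ) : tb M p = M.testBit p := by
  have h2 : (M >>> p) &&& 1 = 0 ∨ (M >>> p) &&& 1 = 1 := by
    rw [Nat.and_one_is_mod]; omega
  unfold tb
  show Nat.beq ((M >>> p) &&& 1) 1 = (1 &&& (M >>> p) != 0)
  rw [Nat.land_comm 1]
  rcases h2 with h2 | h2 <;> rw [h2] <;> rfl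

lemma rw_testBit (M i j : ℕ) : (rw M i).testBit j = (M.testBit (16 * i + j) && decide (j < 16)) := by
  unfold rw
  show ((M >>> (16 * i)) &&& (2 ^ 16 - 1)).testBit j = _
  rw [Nat.testBit_and, Nat.testBit_shiftRight, Nat.testBit_two_pow_sub_one]

/-- Number of bits below `16`. -/
def bits (x : ℕ) : ℕ := ∑ k ∈ range 16, if x.testBit k = true then 1 else 0

lemma pc_le (f x : ℕ) (hx : ∀ k, x.testBit k = true → k < 16) : pc f x ≤ bits x := by
  induction f generalizing x with
  | zero => exact Nat.zero_le _
  | succ f ih =>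
    unfold pc
    by_cases h0 : x = 0
    · subst h0; exact Nat.zero_le _
    · have hb : Nat.beq x 0 = false := by
        rw [Bool.eq_false_iff, ne_eq, beq_iff]; exact h0
      rw [hb, cond_false]
      set y := Nat.land x (Nat.pred x) with hy
      have hy' : y = x &&& (x - 1) := rfl
      have hsub : ∀ k, y.testBit k = true → x.testBit k = true := by
        intro k hk
        rw [hy', Nat.testBit_and, Bool.and_eq_true] at hk
        exact hk.1
      have hne : y ≠ x := by
        have : y ≤ x - 1 := by rw [hy']; exact Nat.and_le_right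
        omega
      have hex : ∃ k, x.testBit k = true ∧ y.testBit k = false := by
        by_contra hcon
        push Not at hcon
        apply hne
        apply Nat.eq_of_testBit_eq
        intro k
        cases hk : x.testBit k with
        | true =>
          have := hcon k hk
          simpa using this
        | false =>
          cases hk' : y.testBit k with
          | true => rw [hsub k hk'] at hk; exact hk
          | false => rfl
      obtain ⟨k, hk1, hk2⟩ := hex
      have h1 := ih y (fun k hk => hx k (hsub k hk))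
      have h2 : bits y + 1 ≤ bits x := by
        unfold bits
        have hk16 : k ∈ range 16 := mem_range.2 (hx k hk1)
        rw [← add_sum_erase _ _ hk16, ← add_sum_erase _ _ hk16, if_pos hk1, hk2]
        have : ∑ x_1 ∈ (range 16).erase k, (if y.testBit x_1 = true then 1 else 0) ≤
            ∑ x_1 ∈ (range 16).erase k, (if x.testBit x_1 = true then 1 else 0) := by
          apply sum_le_sum
          intro l _
          by_cases hl : y.testBit l = true
          · rw [if_pos hl, if_pos (hsub l hl)]
          · rw [if_neg hl]; exact Nat.zero_le _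
        simp only [Bool.false_eq_true, if_false]
        omega
      show pc f y + 1 ≤ bits x
      omega

lemma bits_rw_E {E N : ℕ} (hc : Cons A E N) {i : ℕ} (hi : i < 16) :
    bits (rw E i) ≤ ∑ j ∈ range 16, if A i j = true then 1 else 0 := by
  unfold bits
  apply sum_le_sum
  intro j hj
  rw [mem_range] at hj
  by_cases h : (rw E i).testBit j = true
  · rw [rw_testBit, Bool.and_eq_true] at h
    have := (hc i hi j hj).1 h.1
    rw [if_pos this]
    split_ifs <;> omega
  · rw [if_neg h]; exact Nat.zero_le _

lemma bits_rw_N {E N : ℕ} (hc : Cons A E N) {i : ℕ} (hi : i < 16) :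
    bits (rw N i) + ∑ j ∈ range 16, (if A i j = true then 1 else 0) ≤ 16 := by
  have h16 : (16 : ℕ) = ∑ j ∈ range 16, 1 := by simp
  conv_rhs => rw [h16]
  unfold bits
  rw [← sum_add_distrib]
  apply sum_le_sum
  intro j hj
  rw [mem_range] at hj
  by_cases h : (rw N i).testBit j = true
  · have h' := h
    rw [rw_testBit, Bool.and_eq_true] at h'
    have := (hc i hi j hj).2 h'.1
    rw [if_pos h, this]
    simp
  · rw [if_neg h]; split_ifs <;> omega

lemma bits_and {tab : List (List (ℕ × ℕ))} (hg : Good A tab) {E N : ℕ} (hc : Cons A E N)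
    {i j : ℕ} (hi : i < 16) (hj : j < 16) : bits (Nat.land (rw E i) (rw E j)) ≤ cB A i j := by
  unfold bits cB
  apply sum_le_sum
  intro k hk
  rw [mem_range] at hk
  by_cases h : (Nat.land (rw E i) (rw E j)).testBit k = true
  · rw [if_pos h]
    have h' : ((rw E i) &&& (rw E j)).testBit k = true := h
    rw [Nat.testBit_and, Bool.and_eq_true, rw_testBit, rw_testBit, Bool.and_eq_true,
      Bool.and_eq_true] at h'
    have h1 := (hc i hi k hk).1 h'.1.1
    have h2 := (hc j hj k hk).1 h'.2.1
    rw [hg.symm j k] at h2
    rw [if_pos (by rw [h1, h2]; rfl)]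
  · rw [if_neg h]; exact Nat.zero_le _

lemma rw_lt (M i k : ℕ) (h : (rw M i).testBit k = true) : k < 16 := by
  rw [rw_testBit, Bool.and_eq_true] at h
  exact of_decide_eq_true h.2

lemma posL_le {tab : List (List (ℕ × ℕ))} (hg : Good A tab) {E N : ℕ} (hc : Cons A E N)
    {i : ℕ} (hi : i < 16) (l : List ℕ) (s : ℕ) :
    posL E (rw E i) i s l ≤ ∑ j ∈ (range 16).filter (fun j => s ≤ j),
      if j = i then 0 else cB A i j - 1 := by
  induction l generalizing s with
  | nil => exact Nat.zero_le _
  | cons j js ih =>
    unfold posL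
    cases hb : (Nat.ble s j && (Nat.ble j 15 && !(Nat.beq j i))) with
    | false => exact Nat.zero_le _
    | true =>
      rw [cond_true]
      rw [Bool.and_eq_true, Bool.and_eq_true, ble_iff, ble_iff, Bool.not_eq_true'] at hb
      obtain ⟨h1, h2, h3⟩ := hb
      have h3' : j ≠ i := by
        intro h
        rw [Bool.eq_false_iff, ne_eq, beq_iff] at h3
        exact h3 h
      have hj : j < 16 := by omega
      have hmem : j ∈ (range 16).filter (fun j => s ≤ j) := by
        rw [mem_filter, mem_range]; exact ⟨hj, h1⟩
      rw [← add_sum_erase _ _ hmem, if_neg h3']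
      show Nat.pred (pc 4 (Nat.land (rw E i) (rw E j))) + posL E (rw E i) i (Nat.succ j) js ≤ _
      apply add_le_add
      · have h4 := pc_le 4 (Nat.land (rw E i) (rw E j)) (fun k hk => by
          have hk' : ((rw E i) &&& (rw E j)).testBit k = true := hk
          rw [Nat.testBit_and, Bool.and_eq_true] at hk'
          exact rw_lt E i k hk'.1)
        have h5 := bits_and hg hc hi hj
        show pc 4 (Nat.land (rw E i) (rw E j)) - 1 ≤ _
        omega
      · refine le_trans (ih (Nat.succ j)) ?_
        apply sum_le_sum_of_subset_of_nonneg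
        · intro x hx
          rw [mem_filter] at hx
          rw [mem_erase, mem_filter]
          refine ⟨?_, hx.1, ?_⟩
          · have := hx.2; omega
          · have := hx.2; omega
        · intro x _ _; exact Nat.zero_le _

lemma negL_le {tab : List (List (ℕ × ℕ))} (hg : Good A tab) {E N : ℕ} (hc : Cons A E N)
    {i : ℕ} (hi : i < 16) (l : List ℕ) (s : ℕ) :
    negL N (rw N i) i s l ≤ ∑ j ∈ (range 16).filter (fun j => s ≤ j),
      if j ≠ i ∧ A i j = false ∧ cB A i j = 0 then 1 else 0 := by
  induction l generalizing s with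
  | nil => exact Nat.zero_le _
  | cons j js ih =>
    unfold negL
    cases hb : (Nat.ble s j && (Nat.ble j 15 && (!(Nat.beq j i) && (tb (rw N i) j &&
      Nat.beq (Nat.lor (rw N i) (rw N j)) 65535)))) with
    | false => exact Nat.zero_le _
    | true =>
      rw [cond_true]
      rw [Bool.and_eq_true, Bool.and_eq_true, Bool.and_eq_true, Bool.and_eq_true, ble_iff, ble_iff,
        Bool.not_eq_true', tb_eq, beq_iff] at hb
      obtain ⟨h1, h2, h3, h4, h5⟩ := hb
      have h3' : j ≠ i := by
        intro h
        rw [Bool.eq_false_iff, ne_eq, beq_iff] at h3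
        exact h3 h
      have hj : j < 16 := by omega
      have hmem : j ∈ (range 16).filter (fun j => s ≤ j) := by
        rw [mem_filter, mem_range]; exact ⟨hj, h1⟩
      have hA : A i j = false := by
        rw [rw_testBit, Bool.and_eq_true] at h4
        exact (hc i hi j hj).2 h4.1
      have hB : cB A i j = 0 := by
        unfold cB
        apply sum_eq_zero
        intro k hk
        rw [mem_range] at hk
        rw [if_neg]
        intro hcon
        rw [Bool.and_eq_true] at hcon
        have h6 : (Nat.lor (rw N i) (rw N j)).testBit k = true := by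
          rw [h5, show (65535 : ℕ) = 2 ^ 16 - 1 from rfl, Nat.testBit_two_pow_sub_one]
          exact decide_eq_true hk
        have h7 : ((rw N i) ||| (rw N j)).testBit k = true := h6
        rw [Nat.testBit_or, Bool.or_eq_true, rw_testBit, rw_testBit, Bool.and_eq_true,
          Bool.and_eq_true] at h7
        rcases h7 with h7 | h7
        · rw [(hc i hi k hk).2 h7.1] at hcon
          exact absurd hcon.1 (by decide)
        · have := (hc j hj k hk).2 h7.1
          rw [hg.symm k j, this] at hcon
          exact absurd hcon.2 (by decide)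
      rw [← add_sum_erase _ _ hmem, if_pos ⟨h3', hA, hB⟩]
      show _ + 1 ≤ _
      rw [add_comm]
      apply add_le_add (le_refl 1)
      refine le_trans (ih (Nat.succ j)) ?_
      apply sum_le_sum_of_subset_of_nonneg
      · intro x hx
        rw [mem_filter] at hx
        rw [mem_erase, mem_filter]
        refine ⟨?_, hx.1, ?_⟩
        · have := hx.2; omega
        · have := hx.2; omega
      · intro x _ _; exact Nat.zero_le _

lemma filter_zero : (range 16).filter (fun j => 0 ≤ j) = range 16 := by
  apply filter_true_of_mem; intro x _; exact Nat.zero_le x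

lemma evL_le {tab : List (List (ℕ × ℕ))} (hg : Good A tab) {E N : ℕ} (hc : Cons A E N)
    (l : List Ev) (s : ℕ) :
    evL E N s l ≤ ∑ i ∈ (range 16).filter (fun i => s ≤ i ∧ (i ∈ l.map fun e => match e with
      | .p i _ => i
      | .n i _ => i)), cZ A i := by
  induction l generalizing s with
  | nil => exact Nat.zero_le _
  | cons e es ih =>
    have key : ∀ (i : ℕ) (v : ℕ), s ≤ i → i < 16 → v ≤ cZ A i →
        (match e with
          | .p i _ => i
          | .n i _ => i) = i →
        v + evL E N (Nat.succ i) es ≤ ∑ i ∈ (range 16).filter (fun i => s ≤ i ∧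
          (i ∈ (e :: es).map fun e => match e with
          | .p i _ => i
          | .n i _ => i)), cZ A i := by
      intro i v h1 h2 h3 h4
      have hmem : i ∈ (range 16).filter (fun i => s ≤ i ∧
          (i ∈ (e :: es).map fun e => match e with
          | .p i _ => i
          | .n i _ => i)) := by
        rw [mem_filter, mem_range]
        refine ⟨h2, h1, ?_⟩
        rw [List.map_cons, h4]
        exact List.mem_cons_self
      rw [← add_sum_erase _ _ hmem]
      apply add_le_add h3
      refine le_trans (ih (Nat.succ i)) ?_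
      apply sum_le_sum_of_subset_of_nonneg
      · intro x hx
        rw [mem_filter] at hx
        rw [mem_erase, mem_filter]
        refine ⟨?_, hx.1, ?_, ?_⟩
        · have := hx.2.1; omega
        · have := hx.2.1; omega
        · rw [List.map_cons]; exact List.mem_cons_of_mem _ hx.2.2
      · intro x _ _; exact Nat.zero_le _
    cases e with
    | p i js =>
      unfold evL
      cases hb : (Nat.ble s i && Nat.ble i 15) with
      | false => exact Nat.zero_le _
      | true =>
        rw [cond_true]
        rw [Bool.and_eq_true, ble_iff, ble_iff] at hb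
        apply key i _ hb.1 (by omega) _ rfl
        have h1 := posL_le hg hc (i := i) (by omega) js 0
        rw [filter_zero] at h1
        have h2 := hg.row i (by omega)
        show posL E (rw E i) i 0 js - 1 ≤ _
        have h3 : posL E (rw E i) i 0 js ≤ cP A i := h1
        omega
    | n i js =>
      unfold evL
      cases hb : (Nat.ble s i && Nat.ble i 15) with
      | false => exact Nat.zero_le _
      | true =>
        rw [cond_true]
        rw [Bool.and_eq_true, ble_iff, ble_iff] at hb
        apply key i _ hb.1 (by omega) _ rfl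
        have h1 := negL_le hg hc (i := i) (by omega) js 0
        rw [filter_zero] at h1
        exact h1

lemma cmp_win {E N : ℕ} (hc : Cons A E N) (l : List (ℕ × ℕ)) (hl : ∀ x ∈ l, x.1 < 256 ∧ x.2 < 256)
    (h : cmp E N l = true) : Win A l := by
  have hE : ∀ p < 256, tb E p = true → at' A p = true := by
    intro p hp h
    rw [tb_eq] at h
    apply (hc (p / 16) (by omega) (p % 16) (by omega)).1
    rwa [Nat.div_add_mod]
  have hN : ∀ p < 256, tb N p = true → at' A p = false := by
    intro p hp h
    rw [tb_eq] at h
    apply (hc (p / 16) (by omega) (p % 16) (by omega)).2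
    rwa [Nat.div_add_mod]
  induction l with
  | nil => simp [cmp] at h
  | cons x l ih =>
    obtain ⟨p, q⟩ := x
    have hpq := hl (p, q) List.mem_cons_self
    have ih' := ih (fun x hx => hl x (List.mem_cons_of_mem _ hx))
    unfold cmp at h
    cases hp : tb E p with
    | true =>
      rw [hp, cond_true, Bool.and_eq_true] at h
      exact Or.inr ⟨by rw [hE p hpq.1 hp, hE q hpq.2 h.1], ih' h.2⟩
    | false =>
      rw [hp, cond_false, Bool.and_eq_true, Bool.or_eq_true, Bool.and_eq_true] at h
      rcases h.2 with h2 | h2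
      · exact Or.inl ⟨hN p hpq.1 h.1, hE q hpq.2 h2⟩
      · exact Or.inr ⟨by rw [hN p hpq.1 h.1, hN q hpq.2 h2.1], ih' h2.2⟩

lemma set_testBit (M p q x : ℕ) :
    (Nat.lor (Nat.lor M (Nat.shiftLeft 1 p)) (Nat.shiftLeft 1 q)).testBit x = true ↔
      M.testBit x = true ∨ x = p ∨ x = q := by
  show ((M ||| (1 <<< p)) ||| (1 <<< q)).testBit x = true ↔ _
  rw [Nat.testBit_or, Nat.testBit_or, Bool.or_eq_true, Bool.or_eq_true, Nat.one_shiftLeft,
    Nat.one_shiftLeft, Nat.testBit_two_pow, Nat.testBit_two_pow, decide_eq_true_eq,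
    decide_eq_true_eq]
  constructor
  · rintro ((h | h) | h)
    · exact Or.inl h
    · exact Or.inr (Or.inl h.symm)
    · exact Or.inr (Or.inr h.symm)
  · rintro (h | h | h)
    · exact Or.inl (Or.inl h)
    · exact Or.inl (Or.inr h.symm)
    · exact Or.inr h.symm

theorem chk_sound {tab : List (List (ℕ × ℕ))} (hg : Good A tab)
    (htab : ∀ l ∈ tab, ∀ x ∈ l, x.1 < 256 ∧ x.2 < 256) (fins : List ℕ) (t : T) :
    ∀ E N : ℕ, chk fins tab t E N = true → Cons A E N →
      ∃ F ∈ fins, ∀ i < 16, ∀ j < 16, A i j = F.testBit (16 * i + j) := by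
  induction t with
  | br i j t1 t0 ih1 ih0 =>
    intro E N h hc
    unfold chk at h
    rw [Bool.and_eq_true, Bool.and_eq_true, Bool.and_eq_true] at h
    obtain ⟨⟨h1, h2⟩, h3, h4⟩ := h
    have hij : i < j := by
      have := (ble_iff _ _).1 h1
      exact this
    have hj : j < 16 := by
      have := (ble_iff _ _).1 h2
      omega
    cases hA : A i j with
    | true =>
      apply ih1 _ _ h3
      intro i' hi' j' hj'
      refine ⟨fun h => ?_, (hc i' hi' j' hj').2⟩
      rw [set_testBit] at h
      change _ ∨ 16 * i' + j' = 16 * i + j ∨ 16 * i' + j' = 16 * j + i at h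
      rcases h with h | h | h
      · exact (hc i' hi' j' hj').1 h
      · have e1 : i' = i := by omega
        have e2 : j' = j := by omega
        rw [e1, e2]; exact hA
      · have e1 : i' = j := by omega
        have e2 : j' = i := by omega
        rw [e1, e2, hg.symm]; exact hA
    | false =>
      apply ih0 _ _ h4
      intro i' hi' j' hj'
      refine ⟨(hc i' hi' j' hj').1, fun h => ?_⟩
      rw [set_testBit] at h
      change _ ∨ 16 * i' + j' = 16 * i + j ∨ 16 * i' + j' = 16 * j + i at h
      rcases h with h | h | h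
      · exact (hc i' hi' j' hj').2 h
      · have e1 : i' = i := by omega
        have e2 : j' = j := by omega
        rw [e1, e2]; exact hA
      · have e1 : i' = j := by omega
        have e2 : j' = i := by omega
        rw [e1, e2, hg.symm]; exact hA
  | tri i j k =>
    intro E N h hc
    unfold chk at h
    simp only [Bool.and_eq_true, ble_iff, tb_eq] at h
    obtain ⟨⟨h1, h2, h3⟩, h4, h5, h6⟩ := h
    exact (hg.tri i j k ((hc i (by omega) j (by omega)).1 h4) ((hc j (by omega) k (by omega)).1 h5)
      ((hc i (by omega) k (by omega)).1 h6)).elim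
  | hi i =>
    intro E N h hc
    unfold chk at h
    rw [Bool.and_eq_true, ble_iff, ble_iff] at h
    have h1 := pc_le 5 (rw E i) (rw_lt E i)
    have h2 := bits_rw_E hc (i := i) (by omega)
    have h3 := hg.deg i (by omega)
    omega
  | lo i =>
    intro E N h hc
    unfold chk at h
    rw [Bool.and_eq_true, ble_iff, ble_iff] at h
    have h1 := pc_le 13 (rw N i) (rw_lt N i)
    have h2 := bits_rw_N hc (i := i) (by omega)
    have h3 := hg.deg i (by omega)
    omega
  | cost l =>
    intro E N h hc
    unfold chk at h
    rw [ble_iff] at h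
    have h1 := evL_le hg hc l 0
    have h2 : ∑ i ∈ (range 16).filter (fun i => 0 ≤ i ∧ (i ∈ l.map fun e => match e with
      | .p i _ => i
      | .n i _ => i)), cZ A i ≤ ∑ i ∈ range 16, cZ A i :=
      sum_le_sum_of_subset_of_nonneg (filter_subset _ _) fun x _ _ => Nat.zero_le _
    have h3 := hg.tot
    omega
  | rt l =>
    intro E N h hc
    unfold chk at h
    rw [ble_iff] at h
    have h1 := evL_le hg hc (l.filter fun e => match e with
      | .p i _ => Nat.beq i 0
      | .n i _ => Nat.beq i 0) 0
    have h2 : ∑ i ∈ (range 16).filter (fun i => 0 ≤ i ∧ (i ∈ (l.filter fun e => match e with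
      | .p i _ => Nat.beq i 0
      | .n i _ => Nat.beq i 0).map fun e => match e with
      | .p i _ => i
      | .n i _ => i)), cZ A i = 0 := by
      apply sum_eq_zero
      intro x hx
      rw [mem_filter] at hx
      obtain ⟨_, _, hx⟩ := hx
      rw [List.mem_map] at hx
      obtain ⟨e, he, hex⟩ := hx
      rw [List.mem_filter] at he
      have : x = 0 := by
        rw [← hex]
        cases e with
        | p i js => exact (beq_iff _ _).1 he.2
        | n i js => exact (beq_iff _ _).1 he.2
      rw [this]; exact hg.root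
    omega
  | sym k =>
    intro E N h hc
    unfold chk at h
    by_cases hk : k < tab.length
    · rw [List.getD_eq_getElem _ _ hk] at h
      have hm : tab[k] ∈ tab := List.getElem_mem hk
      exact (hg.lex _ hm (cmp_win hc _ (htab _ hm) h)).elim
    · rw [List.getD_eq_default _ _ (by omega)] at h
      simp [cmp] at h
  | fin =>
    intro E N h hc
    unfold chk at h
    rw [Bool.and_eq_true, List.any_eq_true, beq_iff] at h
    obtain ⟨⟨F, hF, hEF⟩, hEN⟩ := h
    rw [beq_iff] at hEF
    refine ⟨F, hF, fun i hi j hj => ?_⟩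
    rw [← hEF]
    cases hb : E.testBit (16 * i + j) with
    | true => exact (hc i hi j hj).1 hb
    | false =>
      apply (hc i hi j hj).2
      have h1 : (Nat.lor E N).testBit (16 * i + j) = true := by
        rw [hEN, Nat.testBit_two_pow_sub_one]
        exact decide_eq_true (by omega)
      have h2 : (E ||| N).testBit (16 * i + j) = true := h1
      rw [Nat.testBit_or, hb, Bool.false_or] at h2
      exact h2

end Pool.Agent.H170R2.Chk
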