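import Pool.Agent.H170R2.Tree

/-!
Classification of the `4`-regular triangle-free graphs on `16` vertices with few four-cycles.
-/

open Finset

namespace Pool.Agent.H170R2.Chk

/-- All pairs `i < j < 16` in lexicographic order. -/
def pairs : List (ℕ × ℕ) :=
  (List.range 16).flatMap fun i => (List.range 16).filterMap fun j =>
    if i < j then some (i, j) else none

/-- Image of a vertex under a permutation given as a list. -/
def ap (g : List ℕ) (i : ℕ) : ℕ := g.getD i 0

def posOf (g : List ℕ) (x : ℕ × ℕ) : ℕ × ℕ :=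
  (16 * x.1 + x.2, 16 * min (ap g x.1) (ap g x.2) + max (ap g x.1) (ap g x.2))

def symL (g : List ℕ) (l : List (ℕ × ℕ)) : List (ℕ × ℕ) :=
  (l.map (posOf g)).filter fun y => !(Nat.beq y.1 y.2)

lemma tab_eq : tab = gens.map fun g => symL g pairs := by decide +kernel

lemma gens_ok : ∀ g ∈ gens, ap g 0 = 0 ∧ ∀ i < 16, ap g i < 16 ∧ ap g (ap g i) = i := by
  decide +kernel

lemma pairs_ok : ∀ x ∈ pairs, x.1 < 16 ∧ x.2 < 16 ∧ x.1 < x.2 := by decide +kernel

lemma tab_ok : ∀ l ∈ tab, ∀ x ∈ l, x.1 < 256 ∧ x.2 < 256 := by decide +kernel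

/-- The code of a graph. -/
def enc (A : ℕ → ℕ → Bool) : List (ℕ × ℕ) → ℕ
  | [] => 0
  | x :: l => (if A x.1 x.2 = true then 2 ^ l.length else 0) + enc A l

lemma enc_lt (A : ℕ → ℕ → Bool) (l : List (ℕ × ℕ)) : enc A l < 2 ^ l.length := by
  induction l with
  | nil => simp [enc]
  | cons x l ih =>
    unfold enc
    rw [List.length_cons, pow_succ]
    split_ifs <;> omega

lemma win_enc {A : ℕ → ℕ → Bool} (hs : ∀ i j, A i j = A j i) {g : List ℕ}
    (hg : ∀ i < 16, ap g i < 16) (l : List (ℕ × ℕ)) (hl : ∀ x ∈ l, x.1 < 16 ∧ x.2 < 16 ∧ x.1 < x.2)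
    (h : Win A (symL g l)) : enc A l < enc (fun i j => A (ap g i) (ap g j)) l := by
  induction l with
  | nil => exact h.elim
  | cons x l ih =>
    obtain ⟨i, j⟩ := x
    have hij := hl (i, j) List.mem_cons_self
    have ih' := ih fun x hx => hl x (List.mem_cons_of_mem _ hx)
    have h1 : at' A (16 * i + j) = A i j := by
      unfold at'
      rw [show (16 * i + j) / 16 = i by omega, show (16 * i + j) % 16 = j by omega]
    have h2 : at' A (16 * min (ap g i) (ap g j) + max (ap g i) (ap g j)) =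
        A (ap g i) (ap g j) := by
      have := hg i hij.1
      have := hg j hij.2.1
      unfold at'
      rw [show (16 * min (ap g i) (ap g j) + max (ap g i) (ap g j)) / 16 =
          min (ap g i) (ap g j) by omega,
        show (16 * min (ap g i) (ap g j) + max (ap g i) (ap g j)) % 16 =
          max (ap g i) (ap g j) by omega]
      rcases le_total (ap g i) (ap g j) with h | h
      · rw [min_eq_left h, max_eq_right h]
      · rw [min_eq_right h, max_eq_left h, hs]
    have key : (A i j = false ∧ A (ap g i) (ap g j) = true) ∨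
        (A i j = A (ap g i) (ap g j) ∧ Win A (symL g l)) := by
      unfold symL at h
      rw [List.map_cons, List.filter_cons] at h
      by_cases hb : (!(Nat.beq (posOf g (i, j)).1 (posOf g (i, j)).2)) = true
      · rw [if_pos hb] at h
        change (at' A (16 * i + j) = false ∧
          at' A (16 * min (ap g i) (ap g j) + max (ap g i) (ap g j)) = true) ∨
          (at' A (16 * i + j) = at' A (16 * min (ap g i) (ap g j) + max (ap g i) (ap g j)) ∧
            Win A (symL g l)) at h
        rw [h1, h2] at h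
        exact h
      · rw [if_neg hb] at h
        right
        refine ⟨?_, h⟩
        rw [Bool.not_eq_true, Bool.not_eq_false', beq_iff] at hb
        rw [← h1, ← h2]
        exact congrArg (at' A) hb
    have e1 := enc_lt A l
    unfold enc
    simp only
    rcases key with ⟨k1, k2⟩ | ⟨k1, k2⟩
    · rw [k1, k2]
      simp only [Bool.false_eq_true, if_false, if_true]
      omega
    · rw [k1]
      have := ih' k2
      omega

/-! ### The graph hypotheses -/

variable {a : Fin 16 → Fin 16 → ℕ}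

/-- Number of common neighbours (weighted). -/
def bb (a : Fin 16 → Fin 16 → ℕ) (i j : Fin 16) : ℕ := ∑ k, a i k * a k j

/-- A `4`-regular triangle-free graph with few four-cycles. -/
structure Hyp (a : Fin 16 → Fin 16 → ℕ) : Prop where
  symm : ∀ i j, a i j = a j i
  zo : ∀ i j, a i j = 0 ∨ a i j = 1
  diag : ∀ i, a i i = 0
  deg : ∀ i, ∑ j, a i j = 4
  tri : ∀ i j k, a i j * a j k * a i k = 0
  four : ∑ i, ∑ j, bb a i j ^ 2 ≤ 511

def pp (a : Fin 16 → Fin 16 → ℕ) (i : Fin 16) : ℕ := ∑ j, if j = i then 0 else bb a i j - 1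

def zz (a : Fin 16 → Fin 16 → ℕ) (i : Fin 16) : ℕ :=
  ∑ j, if j ≠ i ∧ a i j = 0 ∧ bb a i j = 0 then 1 else 0

lemma bb_diag (h : Hyp a) (i : Fin 16) : bb a i i = 4 := by
  rw [← h.deg i]
  unfold bb
  refine sum_congr rfl fun k _ => ?_
  rw [h.symm k i]
  rcases h.zo i k with h1 | h1 <;> rw [h1]

lemma bb_adj (h : Hyp a) {i j : Fin 16} (hij : a i j = 1) : bb a i j = 0 := by
  unfold bb
  apply sum_eq_zero
  intro k _
  have := h.tri i k j
  rw [hij, mul_one] at this
  exact this

lemma bb_sum (h : Hyp a) (i : Fin 16) : ∑ j, bb a i j = 16 := by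
  unfold bb
  rw [sum_comm]
  have : ∀ k, ∑ j, a i k * a k j = 4 * a i k := by
    intro k; rw [← mul_sum, h.deg k, mul_comm]
  rw [sum_congr rfl fun k _ => this k, ← mul_sum, h.deg i]
  norm_num

lemma pp_eq (h : Hyp a) (i : Fin 16) : pp a i = zz a i + 1 := by
  have key : ∀ j, bb a i j + a i j + (if j ≠ i ∧ a i j = 0 ∧ bb a i j = 0 then 1 else 0) =
      (if j = i then 0 else bb a i j - 1) + 1 + (if j = i then 3 else 0) := by
    intro j
    by_cases hj : j = i
    · subst hj
      rw [bb_diag h, h.diag]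
      simp
    · rw [if_neg hj, if_neg hj]
      rcases h.zo i j with h1 | h1
      · rw [h1]
        by_cases hb : bb a i j = 0
        · rw [if_pos ⟨hj, rfl, hb⟩, hb]
        · rw [if_neg (fun hh => hb hh.2.2)]; omega
      · have hn : ¬ (j ≠ i ∧ (1 : ℕ) = 0 ∧ (0 : ℕ) = 0) := fun hh => absurd hh.2.1 one_ne_zero
        rw [bb_adj h h1, h1, if_neg hn]
  have hs := sum_congr (rfl : (univ : Finset (Fin 16)) = univ) fun j _ => key j
  simp only [sum_add_distrib] at hs
  rw [bb_sum h, h.deg] at hs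
  simp only [sum_const, card_univ, Fintype.card_fin, smul_eq_mul, sum_ite_eq', mem_univ,
    if_true] at hs
  unfold pp zz
  omega

lemma bb_sq (h : Hyp a) (i : Fin 16) : 30 + 2 * zz a i ≤ ∑ j, bb a i j ^ 2 := by
  have key : ∀ j, 3 * (if j = i then 0 else bb a i j - 1) + 1 + (if j = i then 15 else 0) ≤
      bb a i j ^ 2 + a i j + (if j ≠ i ∧ a i j = 0 ∧ bb a i j = 0 then 1 else 0) := by
    intro j
    by_cases hj : j = i
    · subst hj
      rw [bb_diag h, h.diag]
      simp
    · rw [if_neg hj, if_neg hj]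
      rcases h.zo i j with h1 | h1
      · rw [h1]
        by_cases hb : bb a i j = 0
        · rw [if_pos ⟨hj, rfl, hb⟩, hb]; norm_num
        · rw [if_neg (fun hh => hb hh.2.2)]
          obtain ⟨m, hm⟩ : ∃ m, bb a i j = m + 1 := ⟨bb a i j - 1, by omega⟩
          rw [hm]
          rcases Nat.eq_zero_or_pos m with h0 | h0
          · subst h0; norm_num
          · have : m + 1 - 1 = m := rfl
            rw [this]; nlinarith
      · have hn : ¬ (j ≠ i ∧ (1 : ℕ) = 0 ∧ (0 : ℕ) = 0) := fun hh => absurd hh.2.1 one_ne_zero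
        rw [bb_adj h h1, h1, if_neg hn]; norm_num
  have hs := sum_le_sum fun j (_ : j ∈ (univ : Finset (Fin 16))) => key j
  simp only [sum_add_distrib, ← mul_sum] at hs
  rw [h.deg] at hs
  simp only [sum_const, card_univ, Fintype.card_fin, smul_eq_mul, sum_ite_eq', mem_univ,
    if_true] at hs
  have hp := pp_eq h i
  unfold pp zz at *
  omega

lemma zz_total (h : Hyp a) : ∑ i, zz a i ≤ 15 := by
  have h1 := sum_le_sum fun i (_ : i ∈ (univ : Finset (Fin 16))) => bb_sq h i
  simp only [sum_add_distrib, ← mul_sum, sum_const, card_univ, Fintype.card_fin, smul_eq_mul] at h1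
  have h2 := h.four
  omega

/-- Relabelling. -/
def rel (a : Fin 16 → Fin 16 → ℕ) (σ : Equiv.Perm (Fin 16)) : Fin 16 → Fin 16 → ℕ :=
  fun i j => a (σ i) (σ j)

lemma bb_rel (σ : Equiv.Perm (Fin 16)) (i j : Fin 16) : bb (rel a σ) i j = bb a (σ i) (σ j) := by
  unfold bb rel
  exact Equiv.sum_comp σ fun k => a (σ i) k * a k (σ j)

lemma hyp_rel (h : Hyp a) (σ : Equiv.Perm (Fin 16)) : Hyp (rel a σ) where
  symm i j := h.symm _ _
  zo i j := h.zo _ _
  diag i := h.diag _
  deg i := by
    rw [← h.deg (σ i)]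
    exact Equiv.sum_comp σ fun j => a (σ i) j
  tri i j k := h.tri _ _ _
  four := by
    refine le_trans (le_of_eq ?_) h.four
    rw [← Equiv.sum_comp σ fun i => ∑ j, bb a i j ^ 2]
    refine sum_congr rfl fun i _ => ?_
    rw [← Equiv.sum_comp σ fun j => bb a (σ i) j ^ 2]
    exact sum_congr rfl fun j _ => by rw [bb_rel]

lemma zz_rel (σ : Equiv.Perm (Fin 16)) (i : Fin 16) : zz (rel a σ) i = zz a (σ i) := by
  unfold zz
  rw [← Equiv.sum_comp σ fun j => if j ≠ σ i ∧ a (σ i) j = 0 ∧ bb a (σ i) j = 0 then 1 else 0]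
  refine sum_congr rfl fun j _ => ?_
  rw [bb_rel]
  simp only [ne_eq, EmbeddingLike.apply_eq_iff_eq]
  rfl

/-- The Boolean adjacency function on `ℕ`. -/
def toA (a : Fin 16 → Fin 16 → ℕ) (i j : ℕ) : Bool :=
  if h : i < 16 ∧ j < 16 then decide (a ⟨i, h.1⟩ ⟨j, h.2⟩ = 1) else false

lemma toA_fin (i j : Fin 16) : toA a i j = decide (a i j = 1) := by
  unfold toA
  rw [dif_pos ⟨i.2, j.2⟩]

lemma cB_eq (h : Hyp a) (i j : Fin 16) : cB (toA a) i j = bb a i j := by
  unfold cB bb
  rw [Finset.sum_range]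
  refine sum_congr rfl fun k _ => ?_
  rw [toA_fin, toA_fin]
  rcases h.zo i k with h1 | h1 <;> rcases h.zo k j with h2 | h2 <;> rw [h1, h2] <;> simp

lemma cP_eq (h : Hyp a) (i : Fin 16) : cP (toA a) i = pp a i := by
  unfold cP pp
  rw [Finset.sum_range]
  refine sum_congr rfl fun j _ => ?_
  rw [cB_eq h]
  simp only [Fin.val_inj]

lemma cZ_eq (h : Hyp a) (i : Fin 16) : cZ (toA a) i = zz a i := by
  unfold cZ zz
  rw [Finset.sum_range]
  refine sum_congr rfl fun j _ => ?_
  rw [cB_eq h, toA_fin]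
  have e : decide (a i j = 1) = false ↔ a i j = 0 := by
    rcases h.zo i j with h1 | h1 <;> rw [h1] <;> simp
  simp only [ne_eq, Fin.val_inj, e]

/-- The permutation of a list in `gens`. -/
def toPerm (g : List ℕ) (hg : ∀ i < 16, ap g i < 16 ∧ ap g (ap g i) = i) :
    Equiv.Perm (Fin 16) :=
  Function.Involutive.toPerm (fun i : Fin 16 => (⟨ap g i, (hg i i.2).1⟩ : Fin 16)) fun i => by
    ext; exact (hg i i.2).2

lemma good_of_hyp (h : Hyp a) (hz : zz a 0 = 0)
    (hmax : ∀ τ : Equiv.Perm (Fin 16), τ 0 = 0 → enc (toA (rel a τ)) pairs ≤ enc (toA a) pairs) :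
    Good (toA a) tab where
  symm i j := by
    unfold toA
    by_cases hij : i < 16 ∧ j < 16
    · rw [dif_pos hij, dif_pos ⟨hij.2, hij.1⟩, h.symm]
    · rw [dif_neg hij, dif_neg fun h' => hij ⟨h'.2, h'.1⟩]
  irr i := by
    unfold toA
    by_cases hi : i < 16 ∧ i < 16
    · rw [dif_pos hi, h.diag]; rfl
    · rw [dif_neg hi]
  deg i hi := by
    have h1 := h.deg ⟨i, hi⟩
    rw [Finset.sum_range, ← h1]
    refine sum_congr rfl fun j _ => ?_
    have := toA_fin (a := a) ⟨i, hi⟩ j
    change toA a i j = _ at this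
    rw [this]
    rcases h.zo ⟨i, hi⟩ j with h2 | h2 <;> rw [h2] <;> simp
  tri i j k h1 h2 h3 := by
    have hlt : ∀ i j : ℕ, toA a i j = true → i < 16 ∧ j < 16 := by
      intro i j hh
      by_contra hcon
      unfold toA at hh
      rw [dif_neg hcon] at hh
      exact absurd hh (by decide)
    have hi := (hlt _ _ h1).1
    have hj := (hlt _ _ h1).2
    have hk := (hlt _ _ h2).2
    have e := h.tri ⟨i, hi⟩ ⟨j, hj⟩ ⟨k, hk⟩
    unfold toA at h1 h2 h3
    rw [dif_pos ⟨hi, hj⟩, decide_eq_true_eq] at h1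
    rw [dif_pos ⟨hj, hk⟩, decide_eq_true_eq] at h2
    rw [dif_pos ⟨hi, hk⟩, decide_eq_true_eq] at h3
    rw [h1, h2, h3] at e
    omega
  row i hi := by
    have h1 := cP_eq h ⟨i, hi⟩
    have h2 := cZ_eq h ⟨i, hi⟩
    have h3 := pp_eq h ⟨i, hi⟩
    change cP (toA a) i = _ at h1
    change cZ (toA a) i = _ at h2
    omega
  tot := by
    rw [Finset.sum_range, sum_congr rfl fun i _ => cZ_eq h i]
    exact zz_total h
  root := by
    have := cZ_eq h 0
    rw [hz] at this
    exact this
  lex l hl hwin := by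
    rw [tab_eq, List.mem_map] at hl
    obtain ⟨g, hg, rfl⟩ := hl
    obtain ⟨hg0, hg1⟩ := gens_ok g hg
    have hs : ∀ i j, toA a i j = toA a j i := by
      intro i j
      unfold toA
      by_cases hij : i < 16 ∧ j < 16
      · rw [dif_pos hij, dif_pos ⟨hij.2, hij.1⟩, h.symm]
      · rw [dif_neg hij, dif_neg fun h' => hij ⟨h'.2, h'.1⟩]
    have h1 := win_enc hs (fun i hi => (hg1 i hi).1) pairs pairs_ok hwin
    have h2 := hmax (toPerm g hg1) (by
      apply Fin.ext
      exact hg0)
    have h3 : enc (toA (rel a (toPerm g hg1))) pairs =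
        enc (fun i j => toA a (ap g i) (ap g j)) pairs := by
      have gen : ∀ l : List (ℕ × ℕ), (∀ x ∈ l, x.1 < 16 ∧ x.2 < 16 ∧ x.1 < x.2) →
          enc (toA (rel a (toPerm g hg1))) l = enc (fun i j => toA a (ap g i) (ap g j)) l := by
        intro l
        induction l with
        | nil => intro _; rfl
        | cons x l ih =>
          intro hx
          unfold enc
          rw [ih fun y hy => hx y (List.mem_cons_of_mem _ hy)]
          have hx' := hx x List.mem_cons_self
          congr 1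
          have e : toA (rel a (toPerm g hg1)) x.1 x.2 = toA a (ap g x.1) (ap g x.2) := by
            unfold toA
            rw [dif_pos ⟨hx'.1, hx'.2.1⟩, dif_pos ⟨(hg1 _ hx'.1).1, (hg1 _ hx'.2.1).1⟩]
            rfl
          rw [e]
      exact gen pairs pairs_ok
    rw [h3] at h2
    omega

theorem classify (h : Hyp a) : ∃ σ : Equiv.Perm (Fin 16), ∃ F ∈ fins,
    ∀ i j : Fin 16, a (σ i) (σ j) = if F.testBit (16 * i + j) = true then 1 else 0 := by
  obtain ⟨i0, hi0⟩ : ∃ i0, zz a i0 = 0 := by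
    by_contra hcon
    push Not at hcon
    have h1 : ∑ _i : Fin 16, 1 ≤ ∑ i, zz a i :=
      sum_le_sum fun i _ => Nat.one_le_iff_ne_zero.2 (hcon i)
    have h2 := zz_total h
    simp at h1
    omega
  obtain ⟨σ, hσ0, hσ⟩ : ∃ σ : Equiv.Perm (Fin 16), σ 0 = i0 ∧
      ∀ τ : Equiv.Perm (Fin 16), τ 0 = i0 → enc (toA (rel a τ)) pairs ≤ enc (toA (rel a σ)) pairs := by
    have hne : ((univ : Finset (Equiv.Perm (Fin 16))).filter fun σ => σ 0 = i0).Nonempty :=
      ⟨Equiv.swap 0 i0, by rw [mem_filter]; exact ⟨mem_univ _, Equiv.swap_apply_left _ _⟩⟩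
    obtain ⟨σ, h1, h2⟩ := exists_max_image _ (fun τ => enc (toA (rel a τ)) pairs) hne
    rw [mem_filter] at h1
    exact ⟨σ, h1.2, fun τ hτ => h2 τ (by rw [mem_filter]; exact ⟨mem_univ _, hτ⟩)⟩
  have hr := hyp_rel h σ
  have hgood := good_of_hyp hr (by rw [zz_rel, hσ0, hi0]) (fun τ hτ => by
    have e : rel (rel a σ) τ = rel a (τ.trans σ) := rfl
    rw [e]
    apply hσ
    rw [Equiv.trans_apply, hτ, hσ0])
  have hcons : Cons (toA (rel a σ)) 0
      57896486333794311352466587372716853682903935386526539088661048023915243372545 := by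
    intro i hi j hj
    refine ⟨fun hh => by simp at hh, fun hh => ?_⟩
    have key : ∀ i < 16, ∀ j < 16, Nat.testBit
        57896486333794311352466587372716853682903935386526539088661048023915243372545
        (16 * i + j) = true → i = j := by decide +kernel
    rw [key i hi j hj hh]
    exact hgood.irr j
  obtain ⟨F, hF, hA⟩ := chk_sound hgood tab_ok fins _ _ _ chk_tree hcons
  refine ⟨σ, F, hF, fun i j => ?_⟩
  have h1 := hA i i.2 j j.2
  rw [toA_fin] at h1
  rcases hr.zo i j with h2 | h2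
  · have h3 : a (σ i) (σ j) = 0 := h2
    rw [h2] at h1
    rw [h3, ← h1]; rfl
  · have h3 : a (σ i) (σ j) = 1 := h2
    rw [h2] at h1
    rw [h3, ← h1]; rfl

end Pool.Agent.H170R2.Chk
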