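import Pool.Agent.H170R2.Classify

/-! The fourth-moment inequality for nonnegative integer matrices with row sums `4`. -/

open Finset

namespace Pool.Agent.H170R2.Rows

open Pool.Agent.H170R2.Chk

variable {a : Fin 16 → Fin 16 → ℕ}

def t3 (a : Fin 16 → Fin 16 → ℕ) (i : Fin 16) : ℕ := ∑ j, a i j * bb a i j

def t4 (a : Fin 16 → Fin 16 → ℕ) (i : Fin 16) : ℕ := ∑ j, bb a i j ^ 2

/-- The row functional. -/
def psi (a : Fin 16 → Fin 16 → ℕ) (i : Fin 16) : ℤ :=
  1152 * (a i i : ℤ) + 340 * ((bb a i i : ℤ) - 4) + 84 * (t3 a i : ℤ) + 9 * ((t4 a i : ℤ) - 32)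

lemma bb_symm (hs : ∀ i j, a i j = a j i) (i j : Fin 16) : bb a i j = bb a j i := by
  unfold bb
  refine sum_congr rfl fun k _ => ?_
  rw [hs i k, hs k j, mul_comm]

lemma bb_sum' (hr : ∀ i, ∑ j, a i j = 4) (i : Fin 16) : ∑ j, bb a i j = 16 := by
  unfold bb
  rw [sum_comm]
  have : ∀ k, ∑ j, a i k * a k j = 4 * a i k := by
    intro k; rw [← mul_sum, hr k, mul_comm]
  rw [sum_congr rfl fun k _ => this k, ← mul_sum, hr i]
  norm_num

lemma row_big (hs : ∀ i j, a i j = a j i) (hr : ∀ i, ∑ j, a i j = 4) {i j0 : Fin 16}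
    (h : 2 ≤ a i j0) : 536 ≤ psi a i := by
  have h2 : 6 ≤ bb a i i := by
    unfold bb
    rw [← add_sum_erase _ _ (mem_univ j0)]
    have h3 := hr i
    rw [← add_sum_erase _ _ (mem_univ j0)] at h3
    have h4 : ∑ x ∈ univ.erase j0, a i x ≤ ∑ x ∈ univ.erase j0, a i x * a x i := by
      apply sum_le_sum
      intro x _
      rw [hs x i]
      exact Nat.le_mul_self _
    have h5 : a i j0 + 2 ≤ a i j0 * a j0 i := by
      rw [hs j0 i]; nlinarith
    omega
  have h4 : 16 ≤ t4 a i := by
    rw [← bb_sum' hr i]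
    unfold t4
    apply sum_le_sum
    intro j _
    rw [pow_two]; exact Nat.le_mul_self _
  unfold psi
  have e1 : (6 : ℤ) ≤ (bb a i i : ℤ) := by exact_mod_cast h2
  have e2 : (16 : ℤ) ≤ (t4 a i : ℤ) := by exact_mod_cast h4
  have e3 : (0 : ℤ) ≤ (a i i : ℤ) := Int.natCast_nonneg _
  have e4 : (0 : ℤ) ≤ (t3 a i : ℤ) := Int.natCast_nonneg _
  omega

lemma diag_zero (he : ∀ i, Even (a i i)) {i : Fin 16} (h : ∀ j, a i j ≤ 1) : a i i = 0 := by
  obtain ⟨r, hr⟩ := he i
  have := h i
  omega

lemma bb_simple (hs : ∀ i j, a i j = a j i) (hr : ∀ i, ∑ j, a i j = 4) {i : Fin 16}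
    (h : ∀ j, a i j ≤ 1) : bb a i i = 4 := by
  rw [← hr i]
  unfold bb
  refine sum_congr rfl fun k _ => ?_
  rw [hs k i]
  have := h k
  interval_cases (a i k) <;> rfl

lemma row_small (hs : ∀ i j, a i j = a j i) (hr : ∀ i, ∑ j, a i j = 4) (he : ∀ i, Even (a i i))
    {i : Fin 16} (h : ∀ j, a i j ≤ 1) : 66 * (t3 a i : ℤ) - 18 ≤ psi a i := by
  have h0 := diag_zero he h
  have hb := bb_simple hs hr h
  have key : ∀ j, 3 * (bb a i j : ℤ) - 2 + (if j = i then 6 else 0) + 2 * (a i j : ℤ) -
      2 * ((a i j : ℤ) * (bb a i j : ℤ)) ≤ (bb a i j : ℤ) ^ 2 := by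
    intro j
    by_cases hj : j = i
    · subst hj
      rw [hb, h0, if_pos rfl]; norm_num
    · rw [if_neg hj]
      have hnn : (0 : ℤ) ≤ (bb a i j : ℤ) := Int.natCast_nonneg _
      have := h j
      have h01 : a i j = 0 ∨ a i j = 1 := by omega
      rcases h01 with h1 | h1
      · rw [h1]
        push_cast
        rcases (by omega : bb a i j = 0 ∨ bb a i j = 1 ∨ 2 ≤ bb a i j) with h2 | h2 | h2
        · rw [h2]; norm_num
        · rw [h2]; norm_num
        · have : (2 : ℤ) ≤ (bb a i j : ℤ) := by exact_mod_cast h2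
          nlinarith
      · rw [h1]
        push_cast
        rcases (by omega : bb a i j = 0 ∨ 1 ≤ bb a i j) with h2 | h2
        · rw [h2]; norm_num
        · have : (1 : ℤ) ≤ (bb a i j : ℤ) := by exact_mod_cast h2
          nlinarith
  have hsum := sum_le_sum fun j (_ : j ∈ (univ : Finset (Fin 16))) => key j
  rw [sum_sub_distrib, sum_add_distrib, sum_add_distrib, sum_sub_distrib, ← mul_sum, ← mul_sum,
    ← mul_sum] at hsum
  have e1 : ∑ j, (bb a i j : ℤ) = 16 := by exact_mod_cast bb_sum' hr i
  have e2 : ∑ j, (a i j : ℤ) = 4 := by exact_mod_cast hr i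
  have e3 : ∑ j, (a i j : ℤ) * (bb a i j : ℤ) = (t3 a i : ℤ) := by unfold t3; push_cast; rfl
  have e4 : ∑ j, (bb a i j : ℤ) ^ 2 = (t4 a i : ℤ) := by unfold t4; push_cast; rfl
  rw [e1, e2, e3, e4] at hsum
  simp only [sum_const, card_univ, Fintype.card_fin, sum_ite_eq', mem_univ, if_true,
    nsmul_eq_mul] at hsum
  unfold psi
  rw [h0, hb]
  push_cast at hsum ⊢
  linarith

lemma row_any (hs : ∀ i j, a i j = a j i) (hr : ∀ i, ∑ j, a i j = 4) (he : ∀ i, Even (a i i))
    (i : Fin 16) : -18 ≤ psi a i := by
  by_cases h : ∀ j, a i j ≤ 1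
  · have h1 := row_small hs hr he h
    have h2 : (0 : ℤ) ≤ (t3 a i : ℤ) := Int.natCast_nonneg _
    linarith
  · push Not at h
    obtain ⟨j, hj⟩ := h
    have := row_big hs hr (i := i) (j0 := j) (by omega)
    linarith

/-- Either the moment inequality holds, or the matrix is a triangle-free graph with few
four-cycles. -/
theorem dichotomy (hs : ∀ i j, a i j = a j i) (hr : ∀ i, ∑ j, a i j = 4)
    (he : ∀ i, Even (a i i)) : 0 ≤ ∑ i, psi a i ∨ Hyp a := by
  by_cases hsimple : ∀ i j, a i j ≤ 1
  · by_cases htri : ∀ i j k, a i j * a j k * a i k = 0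
    · by_cases hT : ∑ i, t4 a i ≤ 511
      · right
        exact ⟨hs, fun i j => by have := hsimple i j; omega, fun i => diag_zero he (hsimple i), hr,
          htri, hT⟩
      · left
        have h1 : ∀ i, psi a i = 9 * ((t4 a i : ℤ) - 32) := by
          intro i
          have h3 : t3 a i = 0 := by
            unfold t3 bb
            apply sum_eq_zero
            intro j _
            rw [mul_sum]
            apply sum_eq_zero
            intro k _
            have := htri i k j
            rw [← this]; ring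
          unfold psi
          rw [h3, diag_zero he (hsimple i), bb_simple hs hr (hsimple i)]
          push_cast
          ring
        rw [sum_congr rfl fun i _ => h1 i, ← mul_sum, sum_sub_distrib]
        have h2 : (512 : ℤ) ≤ ∑ i, (t4 a i : ℤ) := by
          have : 512 ≤ ∑ i, t4 a i := by omega
          exact_mod_cast this
        simp only [sum_const, card_univ, Fintype.card_fin, nsmul_eq_mul]
        push_cast
        linarith
    · left
      push Not at htri
      obtain ⟨i, j, k, hijk⟩ := htri
      have hij : a i j = 1 := by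
        have := hsimple i j
        have : a i j ≠ 0 := fun h => hijk (by rw [h]; ring)
        omega
      have hjk : a j k = 1 := by
        have := hsimple j k
        have : a j k ≠ 0 := fun h => hijk (by rw [h]; ring)
        omega
      have hik : a i k = 1 := by
        have := hsimple i k
        have : a i k ≠ 0 := fun h => hijk (by rw [h]; ring)
        omega
      have hd := fun i => diag_zero he (hsimple i)
      have nij : i ≠ j := by rintro rfl; rw [hd] at hij; omega
      have njk : j ≠ k := by rintro rfl; rw [hd] at hjk; omega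
      have nik : i ≠ k := by rintro rfl; rw [hd] at hik; omega
      have two : ∀ x y z, y ≠ z → a x y = 1 → a y z = 1 → a x z = 1 → 2 ≤ t3 a x := by
        intro x y z hyz h1 h2 h3
        have b1 : 1 ≤ bb a x y := by
          unfold bb
          calc 1 = a x z * a z y := by rw [h3, hs z y, h2]
            _ ≤ _ := single_le_sum (f := fun k => a x k * a k y) (fun _ _ => Nat.zero_le _)
                (mem_univ z)
        have b2 : 1 ≤ bb a x z := by
          unfold bb
          calc 1 = a x y * a y z := by rw [h1, h2]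
            _ ≤ _ := single_le_sum (f := fun k => a x k * a k z) (fun _ _ => Nat.zero_le _)
                (mem_univ y)
        unfold t3
        calc 2 ≤ a x y * bb a x y + a x z * bb a x z := by rw [h1, h3]; omega
          _ = ∑ w ∈ {y, z}, a x w * bb a x w := by rw [sum_pair hyz]
          _ ≤ _ := sum_le_sum_of_subset_of_nonneg (subset_univ _) fun _ _ _ => Nat.zero_le _
      have ti := two i j k njk hij hjk hik
      have tj := two j i k nik (by rw [hs]; exact hij) hik hjk
      have tk := two k i j nij (by rw [hs]; exact hik) hij (by rw [hs]; exact hjk)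
      have h6 : 6 ≤ ∑ x, t3 a x := by
        calc 6 ≤ t3 a i + (t3 a j + t3 a k) := by omega
          _ = ∑ w ∈ {i, j, k}, t3 a w := by
            rw [sum_insert (by simp [nij, nik]), sum_pair njk]
          _ ≤ _ := sum_le_sum_of_subset_of_nonneg (subset_univ _) fun _ _ _ => Nat.zero_le _
      have h7 := sum_le_sum fun x (_ : x ∈ (univ : Finset (Fin 16))) =>
        row_small hs hr he (hsimple x)
      rw [sum_sub_distrib, ← mul_sum] at h7
      have h8 : (6 : ℤ) ≤ ∑ x, (t3 a x : ℤ) := by exact_mod_cast h6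
      simp only [sum_const, card_univ, Fintype.card_fin, nsmul_eq_mul] at h7
      push_cast at h7
      linarith
  · left
    push Not at hsimple
    obtain ⟨i, j, hij⟩ := hsimple
    have h1 := row_big hs hr (i := i) (j0 := j) (by omega)
    rw [← add_sum_erase _ _ (mem_univ i)]
    have h2 : ∑ x ∈ univ.erase i, (-18 : ℤ) ≤ ∑ x ∈ univ.erase i, psi a x :=
      sum_le_sum fun x _ => row_any hs hr he x
    have h3 : ∑ x ∈ univ.erase i, (-18 : ℤ) = -270 := by
      rw [sum_const, card_erase_of_mem (mem_univ i), card_univ, Fintype.card_fin]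
      norm_num
    linarith

end Pool.Agent.H170R2.Rows
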