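import Pool.Agent.H170R2.Classify

/-! Spectral preliminaries. -/

open Finset Matrix

namespace Pool.Agent.H170R2.Spec

lemma spec_package {n : Type*} [Fintype n] [DecidableEq n] (C : Matrix n n ℝ)
    (hC : C.IsHermitian) : ∃ (e : n → ℝ) (U : Matrix n n ℝ), U * Uᵀ = 1 ∧ Uᵀ * U = 1 ∧
      C = U * diagonal e * Uᵀ ∧ C.charpoly.roots = (univ.val.map e) := by
  refine ⟨hC.eigenvalues, (hC.eigenvectorUnitary : Matrix n n ℝ), ?_, ?_, ?_, ?_⟩
  · have := Unitary.coe_mul_star_self hC.eigenvectorUnitary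
    simpa [star_eq_conjTranspose, conjTranspose_eq_transpose_of_trivial] using this
  · have := Unitary.coe_star_mul_self hC.eigenvectorUnitary
    simpa [star_eq_conjTranspose, conjTranspose_eq_transpose_of_trivial] using this
  · have h := hC.spectral_theorem
    rw [Unitary.conjStarAlgAut_apply] at h
    simpa [star_eq_conjTranspose, conjTranspose_eq_transpose_of_trivial] using! h
  · rw [hC.roots_charpoly_eq_eigenvalues]
    rfl

lemma roots_of_diagonalization {n : Type*} [Fintype n] [DecidableEq n] (M P Q : Matrix n n ℝ)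
    (t : n → ℝ) (hPQ : P * Q = 1) (h : M * P = P * diagonal t) :
    M.charpoly.roots = univ.val.map t := by
  have hQP : Q * P = 1 := mul_eq_one_comm.1 hPQ
  have hM : M = P * (diagonal t * Q) := by
    rw [← mul_assoc, ← h, mul_assoc, hPQ, mul_one]
  rw [hM, Matrix.charpoly_mul_comm, mul_assoc, hQP, mul_one, charpoly_diagonal,
    Polynomial.roots_prod]
  · simp
  · simp [Finset.prod_ne_zero_iff, Polynomial.X_sub_C_ne_zero]

lemma pow_conj {n : Type*} [Fintype n] [DecidableEq n] {C U : Matrix n n ℝ} {e : n → ℝ}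
    (h0 : U * Uᵀ = 1) (h1 : Uᵀ * U = 1) (h : C = U * diagonal e * Uᵀ) (m : ℕ) :
    C ^ m = U * diagonal (fun i => e i ^ m) * Uᵀ := by
  induction m with
  | zero =>
    have : diagonal (fun i => e i ^ 0) = (1 : Matrix n n ℝ) := by simp
    rw [this, mul_one, h0, pow_zero]
  | succ m ih =>
    rw [pow_succ, ih, h]
    calc U * diagonal (fun i => e i ^ m) * Uᵀ * (U * diagonal e * Uᵀ)
        = U * (diagonal (fun i => e i ^ m) * (Uᵀ * U) * diagonal e) * Uᵀ := by
          simp only [mul_assoc]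
      _ = _ := by
          rw [h1, mul_one, diagonal_mul_diagonal]
          rfl

lemma trace_pow_conj {n : Type*} [Fintype n] [DecidableEq n] {C U : Matrix n n ℝ} {e : n → ℝ}
    (h0 : U * Uᵀ = 1) (h1 : Uᵀ * U = 1) (h : C = U * diagonal e * Uᵀ) (m : ℕ) :
    (C ^ m).trace = ∑ i, e i ^ m := by
  rw [pow_conj h0 h1 h, mul_assoc, trace_mul_comm, mul_assoc, h1, mul_one, trace_diagonal]

lemma shift_diag {n : Type*} [Fintype n] [DecidableEq n] {C U : Matrix n n ℝ} {e : n → ℝ}
    (h0 : U * Uᵀ = 1) (h : C = U * diagonal e * Uᵀ) (a c : ℝ) :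
    a • (1 : Matrix n n ℝ) + c • C = U * diagonal (fun i => a + c * e i) * Uᵀ := by
  have h2 : diagonal (fun i => a + c * e i) = a • (1 : Matrix n n ℝ) + c • diagonal e := by
    ext i j
    by_cases hij : i = j
    · subst hij; simp
    · simp [hij]
  rw [h2, mul_add, add_mul, Matrix.mul_smul, Matrix.mul_smul, mul_one, Matrix.smul_mul,
    Matrix.smul_mul, h0, h]

lemma roots_conj {n : Type*} [Fintype n] [DecidableEq n] {C U : Matrix n n ℝ} {e : n → ℝ}
    (h0 : U * Uᵀ = 1) (h1 : Uᵀ * U = 1) (h : C = U * diagonal e * Uᵀ) :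
    C.charpoly.roots = univ.val.map e := by
  apply roots_of_diagonalization C U Uᵀ e h0
  rw [h, mul_assoc, h1, mul_one]

/-- Roots of the characteristic polynomial of an affine function of a symmetric matrix. -/
lemma roots_affine {n : Type*} [Fintype n] [DecidableEq n] {C : Matrix n n ℝ}
    (hC : C.IsHermitian) (a c : ℝ) :
    (a • (1 : Matrix n n ℝ) + c • C).charpoly.roots = C.charpoly.roots.map fun x => a + c * x := by
  obtain ⟨e, U, h0, h1, h, hr⟩ := spec_package C hC
  rw [roots_conj h0 h1 (shift_diag h0 h a c), hr, Multiset.map_map]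
  rfl

/-- eigenvector relation -/
lemma col_eig {n : Type*} [Fintype n] [DecidableEq n] {L U : Matrix n n ℝ} {x : n → ℝ}
    (h1 : Uᵀ * U = 1) (hL : L = U * diagonal x * Uᵀ) (i : n) :
    L *ᵥ (fun a => U a i) = x i • fun a => U a i := by
  have h2 : L * U = U * diagonal x := by
    rw [hL, mul_assoc, h1, mul_one]
  ext a
  have h3 := congrFun (congrFun h2 a) i
  rw [Matrix.mul_apply] at h3
  simp only [mulVec, dotProduct, Pi.smul_apply, smul_eq_mul]
  rw [h3, mul_diagonal]; ring

lemma col_orth {n : Type*} [Fintype n] [DecidableEq n] {U : Matrix n n ℝ}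
    (h1 : Uᵀ * U = 1) (i j : n) :
    (fun a => U a i) ⬝ᵥ (fun a => U a j) = if i = j then 1 else 0 := by
  have h3 := congrFun (congrFun h1 i) j
  rw [Matrix.mul_apply] at h3
  simpa [dotProduct, Matrix.one_apply] using h3

lemma det_conj {n : Type*} [Fintype n] [DecidableEq n] {C U : Matrix n n ℝ} {e : n → ℝ}
    (h0 : U * Uᵀ = 1) (h : C = U * diagonal e * Uᵀ) : C.det = ∏ i, e i := by
  have : U.det * Uᵀ.det = 1 := by rw [← det_mul, h0, det_one]
  rw [h, det_mul, det_mul, det_diagonal]
  calc U.det * (∏ i, e i) * Uᵀ.det = (∏ i, e i) * (U.det * Uᵀ.det) := by ring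
    _ = _ := by rw [this, mul_one]

/-- The eigenvalues of a Gram matrix are nonnegative. -/
lemma gram_nonneg {m n : Type*} [Fintype n] [DecidableEq n] [Fintype m] {N : Matrix m n ℝ}
    {U : Matrix n n ℝ} {e : n → ℝ} (h1 : Uᵀ * U = 1) (h : Nᵀ * N = U * diagonal e * Uᵀ) (i : n) :
    0 ≤ e i := by
  have h2 := col_eig h1 h i
  have h3 : (fun a => U a i) ⬝ᵥ ((Nᵀ * N) *ᵥ (fun a => U a i)) =
      (N *ᵥ (fun a => U a i)) ⬝ᵥ (N *ᵥ (fun a => U a i)) := by
    rw [← Matrix.mulVec_mulVec, Matrix.dotProduct_mulVec, ← Matrix.mulVec_transpose,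
      Matrix.transpose_transpose]
  rw [h2, dotProduct_smul, col_orth h1, if_pos rfl, smul_eq_mul, mul_one] at h3
  rw [h3]
  exact Finset.sum_nonneg fun j _ => mul_self_nonneg _

/-- Comparison of the two Gram matrices. -/
lemma roots_gram {m n : Type*} [Fintype n] [DecidableEq n] [Fintype m] [DecidableEq m]
    (N : Matrix m n ℝ) (hmn : Fintype.card n ≤ Fintype.card m) :
    (N * Nᵀ).charpoly.roots = Multiset.replicate (Fintype.card m - Fintype.card n) 0 +
      (Nᵀ * N).charpoly.roots := by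
  have h := congrArg Polynomial.roots (Matrix.charpoly_mul_comm' N Nᵀ)
  have hX : ∀ k : ℕ, (Polynomial.X : Polynomial ℝ) ^ k ≠ 0 := fun k => pow_ne_zero _ Polynomial.X_ne_zero
  rw [Polynomial.roots_mul (mul_ne_zero (hX _) (Matrix.charpoly_monic _).ne_zero),
    Polynomial.roots_mul (mul_ne_zero (hX _) (Matrix.charpoly_monic _).ne_zero),
    Polynomial.roots_X_pow, Polynomial.roots_X_pow] at h
  have e : Fintype.card m = Fintype.card n + (Fintype.card m - Fintype.card n) := by omega
  rw [Multiset.nsmul_singleton, Multiset.nsmul_singleton] at h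
  conv_rhs at h => rw [e, Multiset.replicate_add, add_assoc]
  exact add_left_cancel h

end Pool.Agent.H170R2.Spec
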